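import Pool.Agent.TSF.Exit

/-!
# Ternary square-free words: the word `Ω` (fixed point of a 12-uniform morphism), the words
`τ = 010 210120210 Ω` and `D k = 010 210120210 Ω[0, 5·12^k) 02012021012 010`.
-/

set_option autoImplicit false

namespace Pool.Agent.TSF

/-- images of the letters. -/
def img : Fin 3 → List (Fin 3)
  | 0 => [0, 1, 2, 1, 0, 2, 0, 1, 2, 0, 2, 1]
  | 1 => [0, 2, 0, 1, 2, 1, 0, 1, 2, 0, 2, 1]
  | 2 => [2, 0, 1, 2, 1, 0, 2, 1, 2, 0, 2, 1]

/-- `r`-th letter of the image of `a`. -/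
def G (a : Fin 3) (r : ℕ) : Fin 3 := (img a).getD r 0

/-- approximations of the fixed point. -/
def OmA : ℕ → ℕ → Fin 3
  | 0, _ => 2
  | k + 1, n => G (OmA k (n / 12)) (n % 12)

theorem OmA_zero (k : ℕ) : OmA k 0 = 2 := by
  induction k with
  | zero => rfl
  | succ k ih =>
    rw [OmA, Nat.zero_div, ih]
    rfl

theorem OmA_succ (k : ℕ) : ∀ n, n < 12 ^ k → OmA (k + 1) n = OmA k n := by
  induction k with
  | zero =>
    intro n hn
    obtain rfl : n = 0 := by simpa using hn
    rw [OmA_zero, OmA_zero]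
  | succ k ih =>
    intro n hn
    change G (OmA (k + 1) (n / 12)) (n % 12) = G (OmA k (n / 12)) (n % 12)
    rw [ih (n / 12) (by rw [pow_succ] at hn; omega)]

theorem OmA_stable (k l : ℕ) (hkl : k ≤ l) (n : ℕ) (hn : n < 12 ^ k) : OmA l n = OmA k n := by
  induction l, hkl using Nat.le_induction with
  | base => rfl
  | succ l hl ih =>
    rw [OmA_succ l n (hn.trans_le (Nat.pow_le_pow_right (by norm_num) hl)), ih]

/-- the fixed point. -/
def Om (n : ℕ) : Fin 3 := OmA n n

theorem Om_eq (k n : ℕ) (hn : n < 12 ^ k) : Om n = OmA k n := by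
  have h1 : n < 12 ^ n := Nat.lt_pow_self (by norm_num)
  rcases le_total k n with h | h
  · exact OmA_stable k n h n hn
  · exact (OmA_stable n k h n h1).symm

theorem Om_rec (q r : ℕ) (hr : r < 12) : Om (12 * q + r) = G (Om q) r := by
  have h1 : q < 12 ^ q := Nat.lt_pow_self (by norm_num)
  rw [Om_eq (q + 1) (12 * q + r) (by rw [pow_succ]; omega), OmA, Om_eq q q h1]
  congr 1
  · congr 1; omega
  · omega

theorem Om_zero : Om 0 = 2 := rfl

/-- windows: three consecutive blocks. -/
def win (a b c : Fin 3) (i : ℕ) : Fin 3 := (img a ++ img b ++ img c).getD i 0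

theorem Om_win (q i : ℕ) (hi : i < 36) :
    Om (12 * q + i) = win (Om q) (Om (q + 1)) (Om (q + 2)) i := by
  have hl : ∀ a, (img a).length = 12 := by decide
  unfold win
  rcases Nat.lt_or_ge i 12 with h | h
  · rw [Om_rec q i h, G, List.getD_eq_getElem?_getD, List.getD_eq_getElem?_getD, List.append_assoc,
      List.getElem?_append_left (by rw [hl]; exact h)]
  rcases Nat.lt_or_ge i 24 with h' | h'
  · rw [show 12 * q + i = 12 * (q + 1) + (i - 12) by omega, Om_rec (q + 1) (i - 12) (by omega), G,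
      List.getD_eq_getElem?_getD, List.getD_eq_getElem?_getD, List.append_assoc,
      List.getElem?_append_right (by rw [hl]; exact h), hl,
      List.getElem?_append_left (by rw [hl]; omega)]
  · rw [show 12 * q + i = 12 * (q + 2) + (i - 24) by omega, Om_rec (q + 2) (i - 24) (by omega), G,
      List.getD_eq_getElem?_getD, List.getD_eq_getElem?_getD,
      List.getElem?_append_right (by rw [List.length_append, hl, hl]; omega),
      List.length_append, hl, hl]

theorem G_ne1 : ∀ a : Fin 3, ∀ r < 11, G a r ≠ G a (r + 1) := by decide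

theorem G_ne2 : ∀ a b : Fin 3, G a 11 ≠ G b 0 := by decide

theorem Om_ne (i : ℕ) : Om i ≠ Om (i + 1) := by
  obtain ⟨q, r, hr, rfl⟩ : ∃ q r, r < 12 ∧ i = 12 * q + r :=
    ⟨i / 12, i % 12, Nat.mod_lt _ (by norm_num), by omega⟩
  rcases Nat.lt_or_ge r 11 with h | h
  · rw [Om_rec q r hr, add_assoc, Om_rec q (r + 1) (by omega)]
    exact G_ne1 _ _ h
  · obtain rfl : r = 11 := by omega
    rw [Om_rec q 11 hr, show 12 * q + 11 + 1 = 12 * (q + 1) + 0 by omega,
      Om_rec (q + 1) 0 (by omega)]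
    exact G_ne2 _ _

/-- the finite check for short periods. -/
theorem win_sqf : ∀ a b c : Fin 3, a ≠ b → b ≠ c → ∀ r < 12, ∀ p < 9, 0 < p →
    ∃ j < p, win a b c (r + j) ≠ win a b c (r + p + j) := by decide +kernel

/-- synchronisation. -/
theorem win_sync : ∀ a b c d : Fin 3, a ≠ b → c ≠ d → ∀ r < 12, ∀ r' < 12, r ≠ r' →
    ∃ j < 8, win a b 0 (r + j) ≠ win c d 0 (r' + j) := by decide +kernel

theorem win_congr : ∀ a b c : Fin 3, ∀ i < 24, win a b c i = win a b 0 i := by decide +kernel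

theorem Om_win2 (q i : ℕ) (hi : i < 24) : Om (12 * q + i) = win (Om q) (Om (q + 1)) 0 i := by
  rw [Om_win q i (by omega), win_congr _ _ _ i hi]

/-- windows of length `8` determine the position modulo `12`. -/
theorem Om_sync (s s' : ℕ) (h : ∀ j < 8, Om (s + j) = Om (s' + j)) : s % 12 = s' % 12 := by
  by_contra hne
  obtain ⟨j, hj, hj2⟩ := win_sync (Om (s / 12)) (Om (s / 12 + 1)) (Om (s' / 12))
    (Om (s' / 12 + 1)) (Om_ne _) (Om_ne _) (s % 12) (Nat.mod_lt _ (by norm_num)) (s' % 12)
    (Nat.mod_lt _ (by norm_num)) hne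
  apply hj2
  rw [← Om_win2 _ _ (by omega), ← Om_win2 _ _ (by omega)]
  have := h j hj
  rw [show 12 * (s / 12) + (s % 12 + j) = s + j by omega,
    show 12 * (s' / 12) + (s' % 12 + j) = s' + j by omega]
  exact this

theorem G_inj1 : ∀ a b : Fin 3, G a 1 = G b 1 → a = b := by decide

theorem Om_sqf_aux (p : ℕ) : ∀ s, 0 < p → ∃ j, j < p ∧ Om (s + j) ≠ Om (s + p + j) := by
  induction p using Nat.strong_induction_on with
  | _ p ih =>
    intro s hp
    rcases Nat.lt_or_ge p 9 with h9 | h9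
    · obtain ⟨j, hj, hne⟩ := win_sqf (Om (s / 12)) (Om (s / 12 + 1)) (Om (s / 12 + 2))
        (Om_ne _) (Om_ne _) (s % 12) (Nat.mod_lt _ (by norm_num)) p h9 hp
      refine ⟨j, hj, ?_⟩
      rw [← Om_win _ _ (by omega), ← Om_win _ _ (by omega)] at hne
      rwa [show 12 * (s / 12) + (s % 12 + j) = s + j by omega,
        show 12 * (s / 12) + (s % 12 + p + j) = s + p + j by omega] at hne
    · by_contra hcon
      push Not at hcon
      have h1 := Om_sync s (s + p) (fun j hj => hcon j (by omega))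
      obtain ⟨p', rfl⟩ : ∃ p', p = 12 * p' := ⟨p / 12, by omega⟩
      obtain ⟨j, hj, hne⟩ := ih p' (by omega) ((s + 10) / 12) (by omega)
      apply hne
      apply G_inj1
      rw [← Om_rec _ 1 (by norm_num), ← Om_rec _ 1 (by norm_num)]
      have := hcon (12 * ((s + 10) / 12 + j) + 1 - s) (by omega)
      rw [show s + (12 * ((s + 10) / 12 + j) + 1 - s) = 12 * ((s + 10) / 12 + j) + 1 by omega,
        show s + 12 * p' + (12 * ((s + 10) / 12 + j) + 1 - s)
          = 12 * ((s + 10) / 12 + p' + j) + 1 by omega] at this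
      exact this

theorem Om_sqf : SqF Om := fun s p hp => Om_sqf_aux p s hp

end Pool.Agent.TSF
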