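import Pool.Agent.TSF.Words
import Pool.Agent.Helper85.PowerFreeComp

/-!
# Ternary square-free words: the transition property.
-/

set_option autoImplicit false

namespace Pool.Agent.TSF

open Pool.Agent.Helper85.PowerFree

/-- the reversed limit word. -/
def T' (i : ℕ) : Fin 3 := D (i + 2) (Dl (i + 2) - 1 - i)

theorem Om_rev (k : ℕ) : ∀ n, n < 12 ^ k → Om (5 * 12 ^ k - 1 - n) = Om (5 * 12 ^ (k + 1) - 1 - n) := by
  induction k with
  | zero =>
    intro n hn
    obtain rfl : n = 0 := by simpa using hn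
    have h59 : Om 59 = 1 := (Om_rec 4 11 (by norm_num)).trans (by rw [Om_4]; rfl)
    exact Om_4.trans h59.symm
  | succ k ih =>
    intro n hn
    have hpos : 0 < 12 ^ k := by positivity
    have e1 : 12 ^ (k + 1) = 12 * 12 ^ k := by rw [pow_succ]; ring
    have e2 : 12 ^ (k + 1 + 1) = 12 * 12 ^ (k + 1) := by rw [pow_succ]; ring
    have h := ih (n / 12) (by omega)
    rw [show 5 * 12 ^ (k + 1) - 1 - n = 12 * (5 * 12 ^ k - 1 - n / 12) + (11 - n % 12) by omega,
      show 5 * 12 ^ (k + 1 + 1) - 1 - n = 12 * (5 * 12 ^ (k + 1) - 1 - n / 12) + (11 - n % 12) by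
        omega, Om_rec _ _ (by omega), Om_rec _ _ (by omega), h]

theorem D_rev_lt (k i : ℕ) (hi : i < 14) : D k (Dl k - 1 - i) = Bf.getD (13 - i) 0 := by
  unfold D Dl
  rw [if_neg (by omega)]
  congr 1
  omega

theorem D_rev_ge (k n : ℕ) (hn : n < 12 ^ k) :
    D k (Dl k - 1 - (14 + n)) = Om (5 * 12 ^ k - 1 - n) := by
  unfold D Dl
  rw [if_pos (by omega), show 26 + 5 * 12 ^ k - 1 - (14 + n) = 12 + (5 * 12 ^ k - 1 - n) by omega,
    T_om]

theorem D_rev_succ (k i : ℕ) (hi : i < 14 + 12 ^ k) :
    D k (Dl k - 1 - i) = D (k + 1) (Dl (k + 1) - 1 - i) := by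
  rcases Nat.lt_or_ge i 14 with h | h
  · rw [D_rev_lt _ _ h, D_rev_lt _ _ h]
  · obtain ⟨n, rfl⟩ := Nat.exists_eq_add_of_le h
    have : 12 ^ k ≤ 12 ^ (k + 1) := Nat.pow_le_pow_right (by norm_num) (by omega)
    rw [D_rev_ge _ _ (by omega), D_rev_ge _ _ (by omega), Om_rev _ _ (by omega)]

theorem D_rev_le (k l i : ℕ) (hkl : k ≤ l) (hi : i < 14 + 12 ^ k) :
    D k (Dl k - 1 - i) = D l (Dl l - 1 - i) := by
  induction l, hkl using Nat.le_induction with
  | base => rfl
  | succ l hl ih =>
    have : 12 ^ k ≤ 12 ^ l := Nat.pow_le_pow_right (by norm_num) hl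
    rw [ih, D_rev_succ l i (by omega)]

theorem T'_eq (k i : ℕ) (hi : i < 14 + 12 ^ k) : T' i = D k (Dl k - 1 - i) := by
  have h1 : i + 2 < 12 ^ (i + 2) := Nat.lt_pow_self (by norm_num)
  unfold T'
  rcases le_total k (i + 2) with h | h
  · exact (D_rev_le k (i + 2) i h hi).symm
  · exact D_rev_le (i + 2) k i h (by omega)

theorem T'_lt (i : ℕ) (hi : i < 14) : T' i = Bf.getD (13 - i) 0 := D_rev_lt _ _ hi

theorem T'_sqf : SqF T' := by
  intro s p hp
  set k := s + 2 * p + 2 with hk
  have h1 : k < 12 ^ k := Nat.lt_pow_self (by norm_num)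
  have hDl : 12 ^ k ≤ Dl k := by unfold Dl; omega
  obtain ⟨j, hj, hne⟩ := D_sqf k (by omega) (Dl k - s - 2 * p) p hp (by omega)
  refine ⟨p - 1 - j, by omega, ?_⟩
  rw [T'_eq k _ (by omega), T'_eq k _ (by omega)]
  intro h
  apply hne
  rw [show Dl k - s - 2 * p + j = Dl k - 1 - (s + p + (p - 1 - j)) by omega,
    show Dl k - s - 2 * p + p + j = Dl k - 1 - (s + (p - 1 - j)) by omega]
  exact h.symm

theorem T'_ff (i : ℕ) (h : FF T' i) : i = 0 := by
  set k := i + 2 with hk
  have h1 : k < 12 ^ k := Nat.lt_pow_self (by norm_num)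
  have hDl : 12 ^ k < Dl k := by unfold Dl; omega
  obtain ⟨h0, h1', h2⟩ := h
  rw [T'_eq k _ (by omega)] at h0 h1' h2
  rcases D_ff k (by omega) (Dl k - 1 - (i + 2)) (by omega) ⟨h2, by
    rw [← h1']; congr 1; omega, by rw [← h0]; congr 1; omega⟩ with h | h
  · omega
  · omega

theorem good_T' : Good T' where
  sqf := T'_sqf
  f0 := ⟨by rw [T'_lt _ (by norm_num)]; rfl, by rw [T'_lt _ (by norm_num)]; rfl,
    by rw [T'_lt _ (by norm_num)]; rfl⟩
  f1 := T'_ff
  h3 := by rw [T'_lt _ (by norm_num)]; rfl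
  h4 := by rw [T'_lt _ (by norm_num)]; rfl
  h5 := by rw [T'_lt _ (by norm_num)]; rfl
  h6 := by rw [T'_lt _ (by norm_num)]; rfl
  h7 := by rw [T'_lt _ (by norm_num)]; rfl
  h8 := by rw [T'_lt _ (by norm_num)]; rfl
  h9 := by rw [T'_lt _ (by norm_num)]; rfl
  h10 := by rw [T'_lt _ (by norm_num)]; rfl
  h11 := by rw [T'_lt _ (by norm_num)]; rfl

/-! ### making `010` recurrent -/

theorem fin3_per : ∀ a b c d : Fin 3, a ≠ b ∧ b ≠ c ∧ c ≠ d ∧ a ≠ c ∧ b ≠ d → d = a := by
  decide

theorem exists_type {x : ℕ → Fin 3} (hx : SqF x) :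
    ∃ a b : Fin 3, a ≠ b ∧ ∀ N, ∃ i, N ≤ i ∧ x i = a ∧ x (i + 1) = b ∧ x (i + 2) = a := by
  by_contra hcon
  push Not at hcon
  choose N hN using hcon
  have hB' : ∀ a b : Fin 3, ∃ B, ∀ h : a ≠ b, N a b h ≤ B := by
    intro a b
    by_cases h : a = b
    · exact ⟨0, fun h' => absurd h h'⟩
    · exact ⟨N a b h, fun _ => le_rfl⟩
  choose Bd hBd using hB'
  set B := (Finset.univ : Finset (Fin 3 × Fin 3)).sup (fun q => Bd q.1 q.2) with hB
  have hle : ∀ a b (h : a ≠ b), N a b h ≤ B := fun a b h => (hBd a b h).trans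
    (Finset.le_sup (f := fun q : Fin 3 × Fin 3 => Bd q.1 q.2) (Finset.mem_univ (a, b)))
  have hne2 : ∀ i, B ≤ i → x i ≠ x (i + 2) := by
    intro i hi h
    exact hN (x i) (x (i + 1)) (hx.ne i) i ((hle _ _ _).trans hi) rfl rfl h.symm
  have hper : ∀ i, B ≤ i → x (i + 3) = x i := by
    intro i hi
    have h1 := hx.ne i
    have h2 := hx.ne (i + 1)
    have h3 := hx.ne (i + 2)
    have h4 := hne2 i hi
    have h5 := hne2 (i + 1) (by omega)
    rw [show i + 1 + 1 = i + 2 by omega] at h2
    rw [show i + 2 + 1 = i + 3 by omega] at h3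
    rw [show i + 1 + 2 = i + 3 by omega] at h5
    exact fin3_per _ _ _ _ ⟨h1, h2, h3, h4, h5⟩
  obtain ⟨j, hj, hne⟩ := hx B 3 (by norm_num)
  apply hne
  rw [show B + 3 + j = B + j + 3 by omega, hper (B + j) (by omega)]

theorem SqF.comp {x : ℕ → Fin 3} (hx : SqF x) (σ : Equiv.Perm (Fin 3)) :
    SqF (fun i => σ (x i)) := by
  intro s p hp
  obtain ⟨j, hj, hne⟩ := hx s p hp
  exact ⟨j, hj, fun h => hne (σ.injective h)⟩

theorem exists_perm : ∀ a b : Fin 3, a ≠ b → ∃ σ : Equiv.Perm (Fin 3), σ 0 = a ∧ σ 1 = b := by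
  decide +kernel

theorem exists_letter : ∀ a b : Fin 3, ∃ r < 12, G b r = a := by decide +kernel

theorem exists_pattern : ∀ c d : Fin 3, c ≠ d → ¬ (c = 0 ∧ d = 1) →
    ∃ a : Fin 3, ∃ r < 10, G a r = c ∧ G a (r + 1) = d ∧ G a (r + 2) = c := by decide +kernel

theorem Om_pattern (c d : Fin 3) (hcd : c ≠ d) (h01 : ¬ (c = 0 ∧ d = 1)) (N : ℕ) :
    ∃ i, N ≤ i ∧ Om i = c ∧ Om (i + 1) = d ∧ Om (i + 2) = c := by
  obtain ⟨a, r, hr, h0, h1, h2⟩ := exists_pattern c d hcd h01
  obtain ⟨r', hr', h'⟩ := exists_letter a (Om N)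
  refine ⟨12 * (12 * N + r') + r, by omega, ?_, ?_, ?_⟩
  · rw [Om_rec _ _ (by omega), Om_rec _ _ hr', h', h0]
  · rw [add_assoc, Om_rec _ _ (by omega), Om_rec _ _ hr', h', h1]
  · rw [add_assoc, Om_rec _ _ (by omega), Om_rec _ _ hr', h', h2]

theorem make_rec {x : ℕ → Fin 3} (hx : SqF x) (N : ℕ) :
    ∃ z : ℕ → Fin 3, SqF z ∧ (∀ i, i < N → z i = x i) ∧ ∀ M, ∃ i, M ≤ i ∧ FF z i := by
  obtain ⟨a, b, hab, hrec⟩ := exists_type hx
  by_cases h01 : a = 0 ∧ b = 1
  · obtain ⟨rfl, rfl⟩ := h01
    exact ⟨x, hx, fun _ _ => rfl, hrec⟩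
  obtain ⟨σ, hσ0, hσ1⟩ := exists_perm a b hab
  have hrec' : ∀ M, ∃ i, M ≤ i ∧ FF (fun i => σ.symm (x i)) i := by
    intro M
    obtain ⟨i, hi, h0, h1, h2⟩ := hrec M
    refine ⟨i, hi, ?_, ?_, ?_⟩
    · change σ.symm (x i) = 0
      rw [h0, ← hσ0, Equiv.symm_apply_apply]
    · change σ.symm (x (i + 1)) = 1
      rw [h1, ← hσ1, Equiv.symm_apply_apply]
    · change σ.symm (x (i + 2)) = 0
      rw [h2, ← hσ0, Equiv.symm_apply_apply]
  obtain ⟨i0, hi0, hz⟩ := exit (hx.comp σ.symm) good_T hrec' N
  refine ⟨_, hz.comp σ, ?_, ?_⟩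
  · intro i hi
    simp only [if_pos (show i < i0 by omega), Equiv.apply_symm_apply]
  · intro M
    obtain ⟨i, hi, h0, h1, h2⟩ := Om_pattern (σ.symm 0) (σ.symm 1)
      (by intro h; have := σ.symm.injective h; exact absurd this (by decide))
      (by
        rintro ⟨h0, h1⟩
        apply h01
        rw [← hσ0, ← hσ1]
        constructor
        · conv_lhs => rw [← h0]
          simp
        · conv_lhs => rw [← h1]
          simp) M
    refine ⟨i0 + 12 + i, by omega, ?_, ?_, ?_⟩
    · simp only [if_neg (show ¬ i0 + 12 + i < i0 by omega),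
        show i0 + 12 + i - i0 = 12 + i by omega, T_om, h0, Equiv.apply_symm_apply]
    · simp only [if_neg (show ¬ i0 + 12 + i + 1 < i0 by omega),
        show i0 + 12 + i + 1 - i0 = 12 + (i + 1) by omega, T_om, h1, Equiv.apply_symm_apply]
    · simp only [if_neg (show ¬ i0 + 12 + i + 2 < i0 by omega),
        show i0 + 12 + i + 2 - i0 = 12 + (i + 2) by omega, T_om, h2, Equiv.apply_symm_apply]

/-! ### the two-sided gluing -/

/-- the glued word. -/
def Wd (z y : ℕ → Fin 3) (k a b n : ℕ) : Fin 3 :=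
  if n < a then z n else if n < a + Dl k then D k (n - a) else y (a + Dl k + b - 1 - n)

theorem glue {z y : ℕ → Fin 3} {k a b : ℕ} (hk : 2 ≤ k) (hab : a + b + 10 ≤ 12 ^ k)
    (hz : SqF (fun j => if j < a then z j else T (j - a)))
    (hy : SqF (fun j => if j < b then y j else T' (j - b)))
    (s p : ℕ) (hp : 0 < p) (hsp : s + 2 * p ≤ a + Dl k + b) :
    ∃ j, j < p ∧ Wd z y k a b (s + j) ≠ Wd z y k a b (s + p + j) := by
  have hd : Dl k = 26 + 5 * 12 ^ k := rfl
  set M := 12 ^ k with hM
  set d := Dl k with hd'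
  set W := Wd z y k a b with hW
  have W1 : ∀ n, n < a + M → W n = if n < a then z n else T (n - a) := by
    intro n hn
    simp only [hW, Wd]
    by_cases h : n < a
    · rw [if_pos h, if_pos h]
    · rw [if_neg h, if_neg h, if_pos (by omega), D_T k _ (by omega)]
  have W2 : ∀ i, i < b + M → W (a + d + b - 1 - i) = if i < b then y i else T' (i - b) := by
    intro i hi
    simp only [hW, Wd]
    by_cases h : i < b
    · rw [if_pos h, if_neg (by omega), if_neg (by omega)]
      congr 1
      omega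
    · rw [if_neg h, if_neg (by omega), if_pos (by omega), T'_eq k _ (by omega)]
      congr 1
      omega
  have W3 : ∀ n, a ≤ n → n < a + d → W n = D k (n - a) := by
    intro n hn hn'
    simp only [hW, Wd]
    rw [if_neg (by omega), if_pos (by omega)]
  have hT0 : FF T 0 := ⟨rfl, rfl, rfl⟩
  have hDff : ∀ i, a ≤ i → i + 3 ≤ a + d → W i = 0 → W (i + 1) = 1 → W (i + 2) = 0 →
      i = a ∨ i + 3 = a + d := by
    intro i hi hi' h0 h1 h2
    rw [W3 _ (by omega) (by omega)] at h0 h1 h2
    rcases D_ff k hk (i - a) (by omega) ⟨h0, by rw [← h1]; congr 1; omega,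
      by rw [← h2]; congr 1; omega⟩ with h | h
    · left; omega
    · right; omega
  have a0 : W a = 0 := by rw [W1 a (by omega), if_neg (by omega), Nat.sub_self]; rfl
  have a1 : W (a + 1) = 1 := by
    rw [W1 _ (by omega), if_neg (by omega), show a + 1 - a = 1 by omega]; rfl
  have a2 : W (a + 2) = 0 := by
    rw [W1 _ (by omega), if_neg (by omega), show a + 2 - a = 2 by omega]; rfl
  have b0 : W (a + d - 3) = 0 := by
    have := W2 (b + 2) (by omega)
    rw [if_neg (by omega), show a + d + b - 1 - (b + 2) = a + d - 3 by omega,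
      show b + 2 - b = 2 by omega] at this
    rw [this, T'_lt _ (by norm_num)]; rfl
  have b1 : W (a + d - 2) = 1 := by
    have := W2 (b + 1) (by omega)
    rw [if_neg (by omega), show a + d + b - 1 - (b + 1) = a + d - 2 by omega,
      show b + 1 - b = 1 by omega] at this
    rw [this, T'_lt _ (by norm_num)]; rfl
  have b2 : W (a + d - 1) = 0 := by
    have := W2 b (by omega)
    rw [if_neg (by omega), show a + d + b - 1 - b = a + d - 1 by omega,
      show b - b = 0 by omega] at this
    rw [this, T'_lt _ (by norm_num)]; rfl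
  by_contra hcon
  push Not at hcon
  rcases Nat.lt_or_ge (a + M) (s + 2 * p) with h1 | h1
  swap
  · obtain ⟨j, hj, hne⟩ := hz s p hp
    apply hne
    have := hcon j hj
    rw [W1 _ (by omega), W1 _ (by omega)] at this
    exact this
  rcases Nat.lt_or_ge s (a + d - M) with h2 | h2
  swap
  · obtain ⟨j, hj, hne⟩ := hy (a + d + b - s - 2 * p) p hp
    apply hne
    have := hcon (p - 1 - j) (by omega)
    rw [show s + (p - 1 - j) = a + d + b - 1 - (a + d + b - s - 2 * p + p + j) by omega,
      show s + p + (p - 1 - j) = a + d + b - 1 - (a + d + b - s - 2 * p + j) by omega,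
      W2 _ (by omega), W2 _ (by omega)] at this
    exact this.symm
  by_cases h3 : s < a
  · rcases Nat.lt_or_ge (s + p) (a + 3) with h4 | h4
    · omega
    · by_cases h5 : a + p + 3 ≤ a + d
      · have e0 := hcon (a - s) (by omega)
        have e1 := hcon (a + 1 - s) (by omega)
        have e2 := hcon (a + 2 - s) (by omega)
        rw [show s + (a - s) = a by omega, show s + p + (a - s) = a + p by omega, a0] at e0
        rw [show s + (a + 1 - s) = a + 1 by omega,
          show s + p + (a + 1 - s) = a + p + 1 by omega, a1] at e1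
        rw [show s + (a + 2 - s) = a + 2 by omega,
          show s + p + (a + 2 - s) = a + p + 2 by omega, a2] at e2
        rcases hDff (a + p) (by omega) h5 e0.symm e1.symm e2.symm with h | h <;> omega
      · omega
  · by_cases h4 : s + 2 * p ≤ a + d
    · obtain ⟨j, hj, hne⟩ := D_sqf k hk (s - a) p hp (by omega)
      apply hne
      have := hcon j hj
      rw [W3 _ (by omega) (by omega), W3 _ (by omega) (by omega)] at this
      convert this using 2 <;> omega
    · rcases Nat.lt_or_ge (a + d - 3) (s + p) with h5 | h5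
      · omega
      · have e0 := hcon (a + d - 3 - p - s) (by omega)
        have e1 := hcon (a + d - 2 - p - s) (by omega)
        have e2 := hcon (a + d - 1 - p - s) (by omega)
        rw [show s + (a + d - 3 - p - s) = a + d - 3 - p by omega,
          show s + p + (a + d - 3 - p - s) = a + d - 3 by omega, b0] at e0
        rw [show s + (a + d - 2 - p - s) = a + d - 3 - p + 1 by omega,
          show s + p + (a + d - 2 - p - s) = a + d - 2 by omega, b1] at e1
        rw [show s + (a + d - 1 - p - s) = a + d - 3 - p + 2 by omega,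
          show s + p + (a + d - 1 - p - s) = a + d - 1 by omega, b2] at e2
        rcases hDff (a + d - 3 - p) (by omega) (by omega) e0 e1 e2 with h | h <;> omega

/-! ### compactness -/

theorem NB_one_iff {z : List (Fin 3)} (h : NB 1 z) (s p : ℕ) (hp : 0 < p)
    (hsp : s + 2 * p ≤ z.length) : ∃ j, j < p ∧ z.getD (s + j) 0 ≠ z.getD (s + p + j) 0 := by
  obtain ⟨j, hj, hne⟩ := h s p p hp (by simp) (by omega)
  refine ⟨j, hj, fun h' => hne ?_⟩
  rw [show s + j + p = s + p + j by omega]
  rw [List.getD_eq_getElem?_getD, List.getD_eq_getElem?_getD,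
    List.getElem?_eq_getElem (by omega), List.getElem?_eq_getElem (by omega)] at h'
  rw [List.getElem?_eq_getElem (by omega), List.getElem?_eq_getElem (by omega)]
  simp only [Option.getD_some] at h'
  rw [h']

theorem exists_infinite {u : List (Fin 3)}
    (hu : ∀ N : ℕ, ∃ w : List (Fin 3), N ≤ w.length ∧ NB 1 (u ++ w)) :
    ∃ x : ℕ → Fin 3, SqF x ∧ ∀ i, i < u.length → x i = u.getD i 0 := by
  let K : ℕ → Set (ℕ → Fin 3) := fun N => {x | (∀ i, i < u.length → x i = u.getD i 0) ∧
    ∀ s p, 0 < p → s + 2 * p ≤ N → ∃ j, j < p ∧ x (s + j) ≠ x (s + p + j)}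
  have hclosed : ∀ N, IsClosed (K N) := by
    intro N
    simp only [K, Set.ofPred_and, Set.ofPred_forall]
    apply IsClosed.inter
    · refine isClosed_iInter fun i => isClosed_iInter fun _ => ?_
      exact isClosed_eq (continuous_apply i) continuous_const
    · refine isClosed_iInter fun s => isClosed_iInter fun p => isClosed_iInter fun _ =>
        isClosed_iInter fun _ => ?_
      have : {x : ℕ → Fin 3 | ∃ j, j < p ∧ x (s + j) ≠ x (s + p + j)} =
          ⋃ j ∈ Set.Iio p, {x : ℕ → Fin 3 | x (s + j) ≠ x (s + p + j)} := by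
        ext x
        simp
      rw [this]
      apply (Set.finite_Iio p).isClosed_biUnion
      intro j _
      exact (isClosed_discrete {q : Fin 3 × Fin 3 | q.1 ≠ q.2}).preimage
        (f := fun x : ℕ → Fin 3 => (x (s + j), x (s + p + j)))
        ((continuous_apply _).prodMk (continuous_apply _))
  have hne : (⋂ N, K N).Nonempty := by
    apply IsCompact.nonempty_iInter_of_sequence_nonempty_isCompact_isClosed
    · intro N x hx
      exact ⟨hx.1, fun s p hp hsp => hx.2 s p hp (by omega)⟩
    · intro N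
      obtain ⟨w, hw, hNB⟩ := hu N
      refine ⟨fun i => (u ++ w).getD i 0, ?_, ?_⟩
      · intro i hi
        simp only [List.getD_eq_getElem?_getD]
        rw [List.getElem?_append_left hi]
      · intro s p hp hsp
        exact NB_one_iff hNB s p hp (by rw [List.length_append]; omega)
    · exact (hclosed 0).isCompact
    · exact hclosed
  obtain ⟨x, hx⟩ := hne
  rw [Set.mem_iInter] at hx
  exact ⟨x, fun s p hp => (hx (s + 2 * p)).2 s p hp le_rfl, (hx 0).1⟩

/-! ### the transition property -/

theorem transition (u v : List (Fin 3))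
    (hu : ∀ N : ℕ, ∃ w : List (Fin 3), N ≤ w.length ∧ PF 2 (u ++ w))
    (hv : ∀ N : ℕ, ∃ w : List (Fin 3), N ≤ w.length ∧ PF 2 (w ++ v)) :
    ∃ w : List (Fin 3), PF 2 (u ++ w ++ v) := by
  have h21 : (2 : ℚ) - 1 = 1 := by norm_num
  simp only [PF_iff_NB (show (1 : ℚ) < 2 by norm_num), h21] at hu hv ⊢
  obtain ⟨x, hx, hxu⟩ := exists_infinite hu
  obtain ⟨y, hy, hyv⟩ := exists_infinite (u := v.reverse) (by
    intro N
    obtain ⟨w, hw, hNB⟩ := hv N
    refine ⟨w.reverse, by simpa using hw, ?_⟩
    have := hNB.reverse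
    rwa [List.reverse_append] at this)
  obtain ⟨x', hx', hxx', hrecx⟩ := make_rec hx u.length
  obtain ⟨y', hy', hyy', hrecy⟩ := make_rec hy v.reverse.length
  obtain ⟨a, ha, hza⟩ := exit hx' good_T hrecx u.length
  obtain ⟨b, hb, hzb⟩ := exit hy' good_T' hrecy v.reverse.length
  have hlt : a + b + 12 < 12 ^ (a + b + 12) := Nat.lt_pow_self (by norm_num)
  set k := a + b + 12 with hk
  have hgl := glue (k := k) (a := a) (b := b) (by omega) (by omega) hza hzb
  set W := Wd x' y' k a b with hW
  set L := a + Dl k + b with hL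
  set z : List (Fin 3) := (List.range L).map W with hz
  have hzlen : z.length = L := by simp [hz]
  have hzget : ∀ i, i < L → z[i]? = some (W i) := by
    intro i hi
    rw [hz, List.getElem?_map, List.getElem?_range hi]
    rfl
  have hzNB : NB 1 z := by
    intro s p r hp hr hlen
    have hpr : p ≤ r := by
      have : (p : ℚ) ≤ r := by linarith
      exact_mod_cast this
    obtain ⟨j, hj, hne⟩ := hgl s p hp (by omega)
    refine ⟨j, by omega, ?_⟩
    rw [hzget _ (by omega), hzget _ (by omega), show s + j + p = s + p + j by omega]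
    intro h
    exact hne (Option.some.inj h)
  rw [List.length_reverse] at hb
  refine ⟨(z.drop u.length).take (L - u.length - v.length), ?_⟩
  have hzeq : z = u ++ (z.drop u.length).take (L - u.length - v.length) ++ v := by
    apply List.ext_getElem?
    intro i
    rcases Nat.lt_or_ge i u.length with h1 | h1
    · rw [List.append_assoc, List.getElem?_append_left h1, hzget i (by omega)]
      simp only [hW, Wd]
      rw [if_pos (by omega), hxx' i h1, hxu i h1, List.getD_eq_getElem?_getD,
        List.getElem?_eq_getElem h1]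
      rfl
    · rcases Nat.lt_or_ge i (L - v.length) with h2 | h2
      · rw [List.append_assoc, List.getElem?_append_right h1, List.getElem?_append_left
          (by simp; omega), List.getElem?_take_of_lt (by omega), List.getElem?_drop]
        congr 1
        omega
      · rw [List.getElem?_append_right (by simp; omega)]
        have hlen : (u ++ (z.drop u.length).take (L - u.length - v.length)).length =
            L - v.length := by
          simp
          omega
        rw [hlen]
        rcases Nat.lt_or_ge i L with h3 | h3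
        · rw [hzget i h3, List.getElem?_eq_getElem (show i - (L - v.length) < v.length by omega)]
          simp only [hW, Wd]
          rw [if_neg (by omega), if_neg (by omega), hyy' _ (by rw [List.length_reverse]; omega),
            hyv _ (by rw [List.length_reverse]; omega), List.getD_eq_getElem?_getD,
            List.getElem?_reverse (by omega), List.getElem?_eq_getElem (by omega)]
          simp only [Option.getD_some]
          congr 2
          omega
        · rw [List.getElem?_eq_none (by omega), List.getElem?_eq_none (by omega)]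
  rw [← hzeq]
  exact hzNB

end Pool.Agent.TSF
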