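import Mathlib

/-!
# Ternary square-free words: the exit lemma
-/

set_option autoImplicit false

namespace Pool.Agent.TSF

/-- square-freeness of a right-infinite word. -/
def SqF (z : ℕ → Fin 3) : Prop := ∀ s p, 0 < p → ∃ j, j < p ∧ z (s + j) ≠ z (s + p + j)

/-- occurrence of `010` at position `i`. -/
def FF (z : ℕ → Fin 3) (i : ℕ) : Prop := z i = 0 ∧ z (i + 1) = 1 ∧ z (i + 2) = 0

/-- the prefix of length `m` of `τ` occurs in `x` at position `i`. -/
def Occ (x τ : ℕ → Fin 3) (m i : ℕ) : Prop := ∀ j, j < m → x (i + j) = τ j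

theorem Occ.mono {x τ : ℕ → Fin 3} {m m' i : ℕ} (h : Occ x τ m i) (hm : m' ≤ m) : Occ x τ m' i :=
  fun j hj => h j (hj.trans_le hm)

theorem SqF.ne {x : ℕ → Fin 3} (hx : SqF x) (i : ℕ) : x i ≠ x (i + 1) := by
  obtain ⟨j, hj, h⟩ := hx i 1 one_pos
  obtain rfl : j = 0 := by omega
  simpa using h

theorem SqF.not2 {x : ℕ → Fin 3} (hx : SqF x) (i : ℕ) (h0 : x i = x (i + 2))
    (h1 : x (i + 1) = x (i + 3)) : False := by
  obtain ⟨j, hj, h⟩ := hx i 2 two_pos
  interval_cases j
  · exact h h0
  · exact h h1

/-- what the exit lemma needs about the word `τ`. -/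
structure Good (τ : ℕ → Fin 3) : Prop where
  sqf : SqF τ
  f0 : FF τ 0
  f1 : ∀ i, FF τ i → i = 0
  h3 : τ 3 = 2
  h4 : τ 4 = 1
  h5 : τ 5 = 0
  h6 : τ 6 = 1
  h7 : τ 7 = 2
  h8 : τ 8 = 0
  h9 : τ 9 = 2
  h10 : τ 10 = 1
  h11 : τ 11 = 0

/-- choice of the exit. -/
theorem choose_exit {x τ : ℕ → Fin 3} (hτ : Good τ)
    (hrec : ∀ N, ∃ i, N ≤ i ∧ FF x i) (N : ℕ) :
    ∃ m n0 n1 i0, 3 ≤ m ∧ N ≤ i0 ∧ n0 + 2 ≤ n1 ∧ n0 + n1 + 10 ≤ i0 ∧ FF x n1 ∧ Occ x τ m i0 ∧
      ∀ i, n0 ≤ i → i < i0 → ¬ Occ x τ (m + 1) i := by
  have hF : ∀ i, FF x i → Occ x τ 3 i := by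
    intro i hi j hj
    obtain ⟨a, b, c⟩ := hi
    obtain ⟨a', b', c'⟩ := hτ.f0
    interval_cases j
    · simpa [a'] using a
    · simpa [b'] using b
    · simpa [c'] using c
  by_cases hall : ∀ m, ∀ N, ∃ i, N ≤ i ∧ Occ x τ m i
  · -- all prefixes recurrent: take a first occurrence
    obtain ⟨n1, hn1, hn1F⟩ := hrec 2
    set Bd := N + n1 + 10 with hBd
    have hlim : ∀ i, ∃ m, ¬ Occ x τ m i := by
      intro i
      by_contra hcon
      push Not at hcon
      obtain ⟨q, hq, hqF⟩ := hrec (i + 1)
      have hq' : FF τ (q - i) := by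
        obtain ⟨a, b, c⟩ := hqF
        refine ⟨?_, ?_, ?_⟩
        · rw [← hcon (q - i + 1) (q - i) (by omega), ← a]; congr 1; omega
        · rw [← hcon (q - i + 2) (q - i + 1) (by omega), ← b]; congr 1; omega
        · rw [← hcon (q - i + 3) (q - i + 2) (by omega), ← c]; congr 1; omega
      have := hτ.f1 _ hq'
      omega
    choose mf hmf using hlim
    set m := 3 + (Finset.range Bd).sup mf with hm
    have hno : ∀ i, i < Bd → ¬ Occ x τ m i := by
      intro i hi h
      apply hmf i
      apply h.mono
      have : mf i ≤ (Finset.range Bd).sup mf := Finset.le_sup (Finset.mem_range.mpr hi)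
      omega
    have hex : ∃ i, Occ x τ m i := by
      obtain ⟨i, -, hi⟩ := hall m 0
      exact ⟨i, hi⟩
    classical
    refine ⟨m, 0, n1, Nat.find hex, by omega, ?_, by omega, ?_, hn1F, Nat.find_spec hex, ?_⟩
    · by_contra hcon
      exact hno (Nat.find hex) (by omega) (Nat.find_spec hex)
    · by_contra hcon
      exact hno (Nat.find hex) (by omega) (Nat.find_spec hex)
    · intro i _ hi h
      exact Nat.find_min hex hi (h.mono (by omega))
  · push Not at hall
    classical
    set P : ℕ → Prop := fun m => ∃ N, ∀ i, N ≤ i → ¬ Occ x τ m i with hP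
    have hex : ∃ m, P m := hall
    have hmin := Nat.find_spec hex
    have hlt : ∀ m, m < Nat.find hex → ¬ P m := fun m hm => Nat.find_min hex hm
    set M := Nat.find hex with hM
    have hM4 : 4 ≤ M := by
      by_contra hcon
      obtain ⟨N', hN'⟩ := hmin
      obtain ⟨i, hi, hiF⟩ := hrec N'
      exact hN' i hi ((hF i hiF).mono (by omega))
    obtain ⟨n0, hn0⟩ := hmin
    obtain ⟨n1, hn1, hn1F⟩ := hrec (n0 + 2)
    have h1 := hlt (M - 1) (by omega)
    simp only [hP] at h1
    push Not at h1
    obtain ⟨i0, hi0, hocc⟩ := h1 (N + n0 + n1 + 10)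
    refine ⟨M - 1, n0, n1, i0, by omega, by omega, hn1, by omega, hn1F, hocc, ?_⟩
    intro i hi _ h
    exact hn0 i hi (h.mono (by omega))

/-- the exit lemma. -/
theorem exit {x τ : ℕ → Fin 3} (hx : SqF x) (hτ : Good τ)
    (hrec : ∀ N, ∃ i, N ≤ i ∧ FF x i) (N : ℕ) :
    ∃ i0, N ≤ i0 ∧ SqF (fun j => if j < i0 then x j else τ (j - i0)) := by
  obtain ⟨m, n0, n1, i0, hm, hN, hn01, hi0, hn1F, hocc, hno⟩ := choose_exit hτ hrec N
  refine ⟨i0, hN, ?_⟩
  set z : ℕ → Fin 3 := fun j => if j < i0 then x j else τ (j - i0) with hz
  have zx : ∀ j, j < i0 + m → z j = x j := by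
    intro j hj
    by_cases h : j < i0
    · simp only [hz, if_pos h]
    · simp only [hz, if_neg h]
      rw [← hocc (j - i0) (by omega)]
      congr 1
      omega
  have zt : ∀ j, i0 ≤ j → z j = τ (j - i0) := by
    intro j hj
    simp only [hz, if_neg (show ¬ j < i0 by omega)]
  intro s p hp
  by_contra hcon
  push Not at hcon
  -- hcon : ∀ j < p, z (s + j) = z (s + p + j)
  have hx0 : x i0 = 0 := by
    have := hocc 0 (by omega); rw [hτ.f0.1] at this; simpa using this
  have hx1 : x (i0 + 1) = 1 := by
    have := hocc 1 (by omega)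
    rw [this]; exact hτ.f0.2.1
  have hx2 : x (i0 + 2) = 0 := by
    have := hocc 2 (by omega)
    rw [this]; exact hτ.f0.2.2
  have hA1 : i0 + m < s + 2 * p := by
    by_contra h
    obtain ⟨j, hj, hne⟩ := hx s p hp
    apply hne
    rw [← zx (s + j) (by omega), ← zx (s + p + j) (by omega)]
    exact hcon j hj
  have hA2 : s < i0 := by
    by_contra h
    obtain ⟨j, hj, hne⟩ := hτ.sqf (s - i0) p hp
    apply hne
    have := hcon j hj
    rw [zt _ (by omega), zt _ (by omega)] at this
    convert this using 2 <;> omega
  rcases Nat.lt_or_ge (s + p) (i0 + 3) with hc | hc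
  swap
  · -- the first half contains the marker
    have hFF : FF τ p := by
      refine ⟨?_, ?_, ?_⟩
      · have := hcon (i0 - s) (by omega)
        rw [show s + (i0 - s) = i0 by omega, zx i0 (by omega), hx0, zt _ (by omega)] at this
        rw [this]; congr 1; omega
      · have := hcon (i0 + 1 - s) (by omega)
        rw [show s + (i0 + 1 - s) = i0 + 1 by omega, zx (i0 + 1) (by omega), hx1,
          zt _ (by omega)] at this
        rw [this]; congr 1; omega
      · have := hcon (i0 + 2 - s) (by omega)
        rw [show s + (i0 + 2 - s) = i0 + 2 by omega, zx (i0 + 2) (by omega), hx2,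
          zt _ (by omega)] at this
        rw [this]; congr 1; omega
    have := hτ.f1 _ hFF
    omega
  rcases Nat.lt_or_ge i0 (s + p) with hc2 | hc2
  swap
  · -- the marker lies in the second half
    have hocc' : ∀ j, j < s + 2 * p - i0 → x (i0 - p + j) = τ j := by
      intro j hj
      have := hcon (i0 - p - s + j) (by omega)
      rw [zx _ (by omega), zt _ (by omega)] at this
      convert this using 2 <;> omega
    have h1 : i0 - p < n0 := by
      by_contra h
      exact hno (i0 - p) (by omega) (by omega) (fun j hj => hocc' j (by omega))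
    have hFF : FF τ (n1 - (i0 - p)) := by
      obtain ⟨a, b, c⟩ := hn1F
      refine ⟨?_, ?_, ?_⟩
      · rw [← hocc' (n1 - (i0 - p)) (by omega), ← a]; congr 1; omega
      · rw [← hocc' (n1 - (i0 - p) + 1) (by omega), ← b]; congr 1; omega
      · rw [← hocc' (n1 - (i0 - p) + 2) (by omega), ← c]; congr 1; omega
    have := hτ.f1 _ hFF
    omega
  -- the centre lies inside the marker
  -- shift function: for j < p, z (s+j) = τ (s + p + j - i0)
  have hy : ∀ j, j < p → z (s + j) = τ (s + p + j - i0) := by
    intro j hj
    rw [hcon j hj, zt _ (by omega)]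
  have hsn : n1 < s := by
    by_contra h
    have hFF : FF τ (n1 + p - i0) := by
      obtain ⟨a, b, c⟩ := hn1F
      refine ⟨?_, ?_, ?_⟩
      · have := hy (n1 - s) (by omega)
        rw [zx _ (by omega)] at this
        rw [← a, show n1 + p - i0 = s + p + (n1 - s) - i0 by omega, ← this]; congr 1; omega
      · have := hy (n1 + 1 - s) (by omega)
        rw [zx _ (by omega)] at this
        rw [← b, show n1 + p - i0 + 1 = s + p + (n1 + 1 - s) - i0 by omega, ← this]
        congr 1; omega
      · have := hy (n1 + 2 - s) (by omega)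
        rw [zx _ (by omega)] at this
        rw [← c, show n1 + p - i0 + 2 = s + p + (n1 + 2 - s) - i0 by omega, ← this]
        congr 1; omega
    have := hτ.f1 _ hFF
    omega
  obtain ⟨t0, t1, t2⟩ := hτ.f0
  norm_num at t1 t2
  have fin3 : ∀ a : Fin 3, a = 0 ∨ a = 1 ∨ a = 2 := by decide
  rcases (show s + p = i0 + 1 ∨ s + p = i0 + 2 by omega) with hA | hB
  · -- case A
    have hyA : ∀ j, j < p → x (s + j) = τ (1 + j) := by
      intro j hj
      rw [← zx (s + j) (by omega), hy j hj]; congr 1; omega
    have hpm : m ≤ p := by omega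
    have hs0 : x s = 1 := by have := hyA 0 (by omega); rw [add_zero] at this; rw [this, t1]
    have hlast : τ p = 0 := by
      have := hyA (p - 1) (by omega)
      rw [show s + (p - 1) = i0 by omega, hx0, show 1 + (p - 1) = p by omega] at this
      exact this.symm
    rcases fin3 (x (s - 1)) with h0 | h1 | h2
    · -- Occ p (s-1)
      have hO : Occ x τ p (s - 1) := by
        intro j hj
        rcases Nat.eq_zero_or_pos j with rfl | hj0
        · simpa [t0] using h0
        · have := hyA (j - 1) (by omega)
          rw [show s + (j - 1) = s - 1 + j by omega, show 1 + (j - 1) = j by omega] at this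
          exact this
      rcases Nat.lt_or_ge m p with h | h
      · exact hno (s - 1) (by omega) (by omega) (hO.mono (by omega))
      · obtain rfl : p = m := by omega
        obtain ⟨j, hj, hne⟩ := hx (s - 1) p hp
        apply hne
        rw [hO j hj, show s - 1 + p + j = i0 + j by omega, hocc j hj]
    · have := hx.ne (s - 1)
      rw [show s - 1 + 1 = s by omega, h1, hs0] at this
      exact this rfl
    · rcases Nat.lt_or_ge p 6 with h6 | h6
      · have hp3 : 3 ≤ p := by omega
        interval_cases p
        · have := hτ.h3; rw [hlast] at this; exact absurd this (by decide)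
        · have := hτ.h4; rw [hlast] at this; exact absurd this (by decide)
        · have h4 := hyA 3 (by omega)
          rw [show 1 + 3 = 4 by omega, hτ.h4] at h4
          exact hx.not2 (s + 3) (by rw [h4, show s + 3 + 2 = i0 + 1 by omega, hx1])
            (by rw [show s + 3 + 1 = i0 by omega, hx0, show s + 3 + 3 = i0 + 2 by omega, hx2])
      · obtain ⟨j, hj, hne⟩ := hx (s - 1) 3 (by omega)
        have e1 := hyA 1 (by omega)
        have e2 := hyA 2 (by omega)
        have e3 := hyA 3 (by omega)
        have e4 := hyA 4 (by omega)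
        norm_num at e1 e2 e3 e4
        rw [t2] at e1
        rw [hτ.h3] at e2
        rw [hτ.h4] at e3
        rw [hτ.h5] at e4
        apply hne
        interval_cases j
        · rw [add_zero, h2, show s - 1 + 3 + 0 = s + 2 by omega, e2]
        · rw [show s - 1 + 1 = s by omega, hs0, show s - 1 + 3 + 1 = s + 3 by omega, e3]
        · rw [show s - 1 + 2 = s + 1 by omega, e1, show s - 1 + 3 + 2 = s + 4 by omega, e4]
  · -- case B
    have hyB : ∀ j, j < p → z (s + j) = τ (2 + j) := by
      intro j hj
      rw [hy j hj]; congr 1; omega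
    have hpm : m ≤ p + 1 := by omega
    have hl1 : τ (p + 1) = 1 := by
      have := hyB (p - 1) (by omega)
      rw [show s + (p - 1) = i0 + 1 by omega, zx _ (by omega), hx1,
        show 2 + (p - 1) = p + 1 by omega] at this
      exact this.symm
    have hl0 : τ p = 0 := by
      have := hyB (p - 2) (by omega)
      rw [show s + (p - 2) = i0 by omega, zx _ (by omega), hx0,
        show 2 + (p - 2) = p by omega] at this
      exact this.symm
    have hxB : ∀ j, j + 2 < p → x (s + j) = τ (2 + j) := by
      intro j hj
      rw [← zx (s + j) (by omega), hyB j (by omega)]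
    rcases Nat.lt_or_ge p 12 with h12 | h12
    · have hp2 : 2 ≤ p := by omega
      interval_cases p
      · have := hτ.h3; norm_num at hl1; rw [hl1] at this; exact absurd this (by decide)
      · have := hτ.h3; rw [hl0] at this; exact absurd this (by decide)
      · have := hτ.h4; rw [hl0] at this; exact absurd this (by decide)
      · -- p = 5
        have h4 := hxB 2 (by omega)
        norm_num at h4
        rw [hτ.h4] at h4
        exact hx.not2 (s + 2) (by rw [h4, show s + 2 + 2 = i0 + 1 by omega, hx1])
          (by rw [show s + 2 + 1 = i0 by omega, hx0, show s + 2 + 3 = i0 + 2 by omega, hx2])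
      · have := hτ.h6; rw [hl0] at this; exact absurd this (by decide)
      · have := hτ.h7; rw [hl0] at this; exact absurd this (by decide)
      · have := hτ.h9; norm_num at hl1; rw [hl1] at this; exact absurd this (by decide)
      · have := hτ.h9; rw [hl0] at this; exact absurd this (by decide)
      · have := hτ.h10; rw [hl0] at this; exact absurd this (by decide)
      · -- p = 11
        have h4 := hxB 8 (by omega)
        norm_num at h4
        rw [hτ.h10] at h4
        exact hx.not2 (s + 8) (by rw [h4, show s + 8 + 2 = i0 + 1 by omega, hx1])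
          (by rw [show s + 8 + 1 = i0 by omega, hx0, show s + 8 + 3 = i0 + 2 by omega, hx2])
    · have e0 := hxB 0 (by omega)
      have e1 := hxB 1 (by omega)
      have e2 := hxB 2 (by omega)
      have e3 := hxB 3 (by omega)
      have e4 := hxB 4 (by omega)
      have e5 := hxB 5 (by omega)
      have e6 := hxB 6 (by omega)
      have e7 := hxB 7 (by omega)
      have e8 := hxB 8 (by omega)
      have e9 := hxB 9 (by omega)
      norm_num at e0 e1 e2 e3 e4 e5 e6 e7 e8 e9
      rw [t2] at e0
      rw [hτ.h3] at e1
      rw [hτ.h4] at e2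
      rw [hτ.h5] at e3
      rw [hτ.h6] at e4
      rw [hτ.h7] at e5
      rw [hτ.h8] at e6
      rw [hτ.h9] at e7
      rw [hτ.h10] at e8
      rw [hτ.h11] at e9
      rcases fin3 (x (s - 1)) with h0 | h1 | h2
      · have := hx.ne (s - 1)
        rw [show s - 1 + 1 = s by omega, h0, e0] at this
        exact this rfl
      · -- x (s-1) = 1
        rcases fin3 (x (s - 2)) with k0 | k1 | k2
        · have hO : Occ x τ p (s - 2) := by
            intro j hj
            rcases Nat.lt_or_ge j 2 with hj0 | hj0
            · interval_cases j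
              · simpa [t0] using k0
              · rw [show s - 2 + 1 = s - 1 by omega, h1, t1]
            · have := hxB (j - 2) (by omega)
              rw [show s + (j - 2) = s - 2 + j by omega, show 2 + (j - 2) = j by omega] at this
              exact this
          rcases Nat.lt_or_ge m p with h | h
          · exact hno (s - 2) (by omega) (by omega) (hO.mono (by omega))
          · obtain ⟨j, hj, hne⟩ := hx (s - 2) p hp
            apply hne
            rw [hO j hj, show s - 2 + p + j = i0 + j by omega, hocc j (by omega)]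
        · have := hx.ne (s - 2)
          rw [show s - 2 + 1 = s - 1 by omega, h1, k1] at this
          exact this rfl
        · obtain ⟨j, hj, hne⟩ := hx (s - 2) 3 (by omega)
          apply hne
          interval_cases j
          · rw [add_zero, k2, show s - 2 + 3 + 0 = s + 1 by omega, e1]
          · rw [show s - 2 + 1 = s - 1 by omega, h1, show s - 2 + 3 + 1 = s + 2 by omega, e2]
          · rw [show s - 2 + 2 = s by omega, e0, show s - 2 + 3 + 2 = s + 3 by omega, e3]
      · -- x (s-1) = 2
        rcases fin3 (x (s - 2)) with k0 | k1 | k2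
        · exact hx.not2 (s - 2) (by rw [k0, show s - 2 + 2 = s by omega, e0])
            (by rw [show s - 2 + 1 = s - 1 by omega, h2, show s - 2 + 3 = s + 1 by omega, e1])
        · obtain ⟨j, hj, hne⟩ := hx (s - 2) 6 (by omega)
          apply hne
          interval_cases j
          · rw [add_zero, k1, show s - 2 + 6 + 0 = s + 4 by omega, e4]
          · rw [show s - 2 + 1 = s - 1 by omega, h2, show s - 2 + 6 + 1 = s + 5 by omega, e5]
          · rw [show s - 2 + 2 = s by omega, e0, show s - 2 + 6 + 2 = s + 6 by omega, e6]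
          · rw [show s - 2 + 3 = s + 1 by omega, e1, show s - 2 + 6 + 3 = s + 7 by omega, e7]
          · rw [show s - 2 + 4 = s + 2 by omega, e2, show s - 2 + 6 + 4 = s + 8 by omega, e8]
          · rw [show s - 2 + 5 = s + 3 by omega, e3, show s - 2 + 6 + 5 = s + 9 by omega, e9]
        · have := hx.ne (s - 2)
          rw [show s - 2 + 1 = s - 1 by omega, h2, k2] at this
          exact this rfl

end Pool.Agent.TSF
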