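import Pool.Agent.TSF.Omega

/-!
# Ternary square-free words: the words `T`, `T'` and `D k`.
-/

set_option autoImplicit false

namespace Pool.Agent.TSF

/-- `010 210120210`. -/
def fA : List (Fin 3) := [0, 1, 0, 2, 1, 0, 1, 2, 0, 2, 1, 0]

/-- `02012021012 010`. -/
def Bf : List (Fin 3) := [0, 2, 0, 1, 2, 0, 2, 1, 0, 1, 2, 0, 1, 0]

/-- `τ = 010 210120210 Ω`. -/
def T (i : ℕ) : Fin 3 := if i < 12 then fA.getD i 0 else Om (i - 12)

/-- the first `48` letters of `T`. -/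
def preT : List (Fin 3) := fA ++ img 2 ++ img 0 ++ img 1

theorem T_om (i : ℕ) : T (12 + i) = Om i := by
  unfold T
  rw [if_neg (by omega)]
  congr 1
  omega

theorem Om_0 : Om 0 = 2 := rfl
theorem Om_1 : Om 1 = 0 := (Om_rec 0 1 (by norm_num)).trans rfl
theorem Om_2 : Om 2 = 1 := (Om_rec 0 2 (by norm_num)).trans rfl
theorem Om_4 : Om 4 = 1 := (Om_rec 0 4 (by norm_num)).trans rfl
theorem Om_5 : Om 5 = 0 := (Om_rec 0 5 (by norm_num)).trans rfl

theorem preT_lt : ∀ i < 12, preT.getD i 0 = fA.getD i 0 := by decide +kernel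
theorem preT_ge : ∀ i < 36, preT.getD (12 + i) 0 = win 2 0 1 i := by decide +kernel

theorem T_pre (i : ℕ) (hi : i < 48) : T i = preT.getD i 0 := by
  rcases Nat.lt_or_ge i 12 with h | h
  · rw [preT_lt i h, T, if_pos h]
  · obtain ⟨j, rfl⟩ := Nat.exists_eq_add_of_le h
    rw [T_om, preT_ge j (by omega)]
    have := Om_win 0 j (by omega)
    rw [Nat.mul_zero, Nat.zero_add, Nat.zero_add, Nat.zero_add, Om_0, Om_1, Om_2] at this
    exact this

theorem win_ff : ∀ a b : Fin 3, a ≠ b → ∀ r < 12,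
    ¬ (win a b 0 r = 0 ∧ win a b 0 (r + 1) = 1 ∧ win a b 0 (r + 2) = 0) := by decide +kernel

theorem Om_ff (i : ℕ) : ¬ FF Om i := by
  rintro ⟨h0, h1, h2⟩
  apply win_ff (Om (i / 12)) (Om (i / 12 + 1)) (Om_ne _) (i % 12) (Nat.mod_lt _ (by norm_num))
  rw [← Om_win2 _ _ (by omega), ← Om_win2 _ _ (by omega), ← Om_win2 _ _ (by omega),
    show 12 * (i / 12) + i % 12 = i by omega, show 12 * (i / 12) + (i % 12 + 1) = i + 1 by omega,
    show 12 * (i / 12) + (i % 12 + 2) = i + 2 by omega]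
  exact ⟨h0, h1, h2⟩

def mu1 : List (Fin 3) := [0, 2, 0, 1, 2, 1, 0, 2]

theorem win_mu1 : ∀ a b : Fin 3, a ≠ b → ∀ r < 12, ∃ j < 8, win a b 0 (r + j) ≠ mu1.getD j 0 := by
  decide +kernel

theorem Om_mu1 (i : ℕ) : ∃ j < 8, Om (i + j) ≠ mu1.getD j 0 := by
  obtain ⟨j, hj, h⟩ := win_mu1 (Om (i / 12)) (Om (i / 12 + 1)) (Om_ne _) (i % 12)
    (Nat.mod_lt _ (by norm_num))
  refine ⟨j, hj, ?_⟩
  rwa [← Om_win2 _ _ (by omega), show 12 * (i / 12) + (i % 12 + j) = i + j by omega] at h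

theorem preT_mu1 : ∀ j < 8, preT.getD (11 + j) 0 = mu1.getD j 0 := by decide +kernel

theorem preT_sqf : ∀ s < 12, ∀ p < 19, 0 < p → ∃ j < p,
    preT.getD (s + j) 0 ≠ preT.getD (s + p + j) 0 := by decide +kernel

theorem T_sqf : SqF T := by
  intro s p hp
  rcases Nat.lt_or_ge s 12 with hs | hs
  · rcases Nat.lt_or_ge (s + p) 19 with h | h
    · obtain ⟨j, hj, hne⟩ := preT_sqf s hs p (by omega) hp
      refine ⟨j, hj, ?_⟩
      rwa [T_pre _ (by omega), T_pre _ (by omega)]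
    · by_contra hcon
      push Not at hcon
      obtain ⟨j, hj, hne⟩ := Om_mu1 (p - 1)
      apply hne
      rw [← preT_mu1 j hj, ← T_pre _ (by omega), ← T_om]
      have := hcon (11 - s + j) (by omega)
      rw [show s + (11 - s + j) = 11 + j by omega,
        show s + p + (11 - s + j) = 12 + (p - 1 + j) by omega] at this
      exact this.symm
  · obtain ⟨j, hj, hne⟩ := Om_sqf (s - 12) p hp
    refine ⟨j, hj, ?_⟩
    rwa [show s + j = 12 + (s - 12 + j) by omega, show s + p + j = 12 + (s - 12 + p + j) by omega,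
      T_om, T_om]

theorem preT_ff : ∀ i < 12, preT.getD i 0 = 0 → preT.getD (i + 1) 0 = 1 →
    preT.getD (i + 2) 0 = 0 → i = 0 := by decide +kernel

theorem T_ff (i : ℕ) (h : FF T i) : i = 0 := by
  obtain ⟨h0, h1, h2⟩ := h
  rcases Nat.lt_or_ge i 12 with hi | hi
  · rw [T_pre _ (by omega)] at h0 h1 h2
    exact preT_ff i hi h0 h1 h2
  · exfalso
    apply Om_ff (i - 12)
    rw [show i = 12 + (i - 12) by omega, T_om] at h0
    rw [show i + 1 = 12 + (i - 12 + 1) by omega, T_om] at h1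
    rw [show i + 2 = 12 + (i - 12 + 2) by omega, T_om] at h2
    exact ⟨h0, h1, h2⟩

theorem good_T : Good T where
  sqf := T_sqf
  f0 := ⟨rfl, rfl, rfl⟩
  f1 := T_ff
  h3 := rfl
  h4 := rfl
  h5 := rfl
  h6 := rfl
  h7 := rfl
  h8 := rfl
  h9 := rfl
  h10 := rfl
  h11 := rfl

/-- `D k = 010 210120210 Ω[0, 5·12^k) 02012021012 010`. -/
def D (k i : ℕ) : Fin 3 := if i < 12 + 5 * 12 ^ k then T i else Bf.getD (i - (12 + 5 * 12 ^ k)) 0

/-- the length of `D k`. -/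
def Dl (k : ℕ) : ℕ := 26 + 5 * 12 ^ k

theorem Om_5pow (k : ℕ) : Om (5 * 12 ^ k) = 0 := by
  induction k with
  | zero => exact Om_5
  | succ k ih =>
    rw [show 5 * 12 ^ (k + 1) = 12 * (5 * 12 ^ k) + 0 by rw [pow_succ]; ring,
      Om_rec _ _ (by norm_num), ih]
    rfl

theorem D_T (k i : ℕ) (hi : i ≤ 12 + 5 * 12 ^ k) : D k i = T i := by
  unfold D
  by_cases h : i < 12 + 5 * 12 ^ k
  · rw [if_pos h]
  · obtain rfl : i = 12 + 5 * 12 ^ k := by omega
    rw [if_neg h, T_om, Om_5pow, Nat.sub_self]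
    rfl

/-- the last `50` letters of `D k`. -/
def lastD : List (Fin 3) := img 0 ++ img 2 ++ img 1 ++ Bf

theorem lastD_lt : ∀ i < 36, lastD.getD i 0 = win 0 2 1 i := by decide +kernel
theorem lastD_ge : ∀ i < 14, lastD.getD (36 + i) 0 = Bf.getD i 0 := by decide +kernel

theorem G_9 : ∀ a : Fin 3, G a 9 = 0 := by decide
theorem G_10 : ∀ a : Fin 3, G a 10 = 2 := by decide
theorem G_11 : ∀ a : Fin 3, G a 11 = 1 := by decide

theorem D_last (k : ℕ) (hk : 2 ≤ k) (i : ℕ) (hi : i < 50) :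
    D k (5 * 12 ^ k - 24 + i) = lastD.getD i 0 := by
  obtain ⟨l, rfl⟩ := Nat.exists_eq_add_of_le hk
  have hpos : 0 < 12 ^ l := by positivity
  set X := 12 ^ l with hX
  have hpw : 12 ^ (2 + l) = 144 * X := by rw [pow_add]; norm_num [hX]
  unfold D
  rw [hpw]
  rcases Nat.lt_or_ge i 36 with h | h
  · rw [if_pos (by omega), lastD_lt i h,
      show 5 * (144 * X) - 24 + i = 12 + (12 * (12 * (5 * X) - 3) + i) by omega, T_om,
      Om_win _ _ h]
    congr 1
    · rw [show 12 * (5 * X) - 3 = 12 * (5 * X - 1) + 9 by omega, Om_rec _ _ (by norm_num), G_9]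
    · rw [show 12 * (5 * X) - 3 + 1 = 12 * (5 * X - 1) + 10 by omega, Om_rec _ _ (by norm_num),
        G_10]
    · rw [show 12 * (5 * X) - 3 + 2 = 12 * (5 * X - 1) + 11 by omega, Om_rec _ _ (by norm_num),
        G_11]
  · obtain ⟨j, rfl⟩ := Nat.exists_eq_add_of_le h
    rw [if_neg (by omega), lastD_ge j (by omega)]
    congr 1
    omega

def mu2 : List (Fin 3) := [1, 2, 1, 0, 1, 2, 0, 2, 1, 0, 2]

theorem win_mu2 : ∀ a b : Fin 3, a ≠ b → ∀ r < 12, ∃ j < 11, win a b 0 (r + j) ≠ mu2.getD j 0 := by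
  decide +kernel

theorem preT_mu2 : ∀ i < 12, ∃ j < 11, preT.getD (i + j) 0 ≠ mu2.getD j 0 := by decide +kernel

theorem lastD_mu2 : ∀ j < 11, lastD.getD (27 + j) 0 = mu2.getD j 0 := by decide +kernel

theorem T_mu2 (i : ℕ) : ∃ j < 11, T (i + j) ≠ mu2.getD j 0 := by
  rcases Nat.lt_or_ge i 12 with hi | hi
  · obtain ⟨j, hj, h⟩ := preT_mu2 i hi
    refine ⟨j, hj, ?_⟩
    rwa [T_pre _ (by omega)]
  · obtain ⟨i, rfl⟩ := Nat.exists_eq_add_of_le hi
    obtain ⟨j, hj, h⟩ := win_mu2 (Om (i / 12)) (Om (i / 12 + 1)) (Om_ne _) (i % 12)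
      (Nat.mod_lt _ (by norm_num))
    refine ⟨j, hj, ?_⟩
    rw [add_assoc, T_om]
    rwa [← Om_win2 _ _ (by omega), show 12 * (i / 12) + (i % 12 + j) = i + j by omega] at h

theorem lastD_sqf : ∀ s < 50, ∀ p < 26, 0 < p → s + 2 * p ≤ 50 → ∃ j < p,
    lastD.getD (s + j) 0 ≠ lastD.getD (s + p + j) 0 := by decide +kernel

theorem lastD_ff : ∀ i < 48, lastD.getD i 0 = 0 → lastD.getD (i + 1) 0 = 1 →
    lastD.getD (i + 2) 0 = 0 → i = 47 := by decide +kernel

theorem D_sqf (k : ℕ) (hk : 2 ≤ k) (s p : ℕ) (hp : 0 < p) (hsp : s + 2 * p ≤ Dl k) :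
    ∃ j, j < p ∧ D k (s + j) ≠ D k (s + p + j) := by
  have hbig : 720 ≤ 5 * 12 ^ k := by
    have : 12 ^ 2 ≤ 12 ^ k := Nat.pow_le_pow_right (by norm_num) hk
    omega
  unfold Dl at hsp
  set E := 5 * 12 ^ k with hE
  by_contra hcon
  push Not at hcon
  rcases Nat.lt_or_ge (s + 2 * p) (14 + E) with h1 | h1
  · obtain ⟨j, hj, hne⟩ := T_sqf s p hp
    apply hne
    rw [← D_T k _ (by omega), ← D_T k _ (by omega)]
    exact hcon j hj
  rcases Nat.lt_or_ge (3 + E) (s + p) with h2 | h2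
  · obtain ⟨j, hj, hne⟩ := lastD_sqf (s + 24 - E) (by omega) p (by omega) hp (by omega)
    apply hne
    rw [← D_last k hk _ (by omega), ← D_last k hk _ (by omega),
      show 5 * 12 ^ k - 24 + (s + 24 - E + j) = s + j by omega,
      show 5 * 12 ^ k - 24 + (s + 24 - E + p + j) = s + p + j by omega]
    exact hcon j hj
  · obtain ⟨j, hj, hne⟩ := T_mu2 (3 + E - p)
    apply hne
    rw [← lastD_mu2 j hj, ← D_last k hk _ (by omega), ← D_T k _ (by omega)]
    have := hcon (3 + E - p - s + j) (by omega)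
    rw [show s + (3 + E - p - s + j) = 3 + E - p + j by omega,
      show s + p + (3 + E - p - s + j) = 5 * 12 ^ k - 24 + (27 + j) by omega] at this
    exact this

theorem D_ff (k : ℕ) (hk : 2 ≤ k) (i : ℕ) (hi : i + 3 ≤ Dl k) (h : FF (D k) i) :
    i = 0 ∨ i + 3 = Dl k := by
  have hbig : 720 ≤ 5 * 12 ^ k := by
    have : 12 ^ 2 ≤ 12 ^ k := Nat.pow_le_pow_right (by norm_num) hk
    omega
  unfold Dl at hi ⊢
  set E := 5 * 12 ^ k with hE
  obtain ⟨h0, h1, h2⟩ := h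
  rcases Nat.lt_or_ge (i + 2) (13 + E) with h3 | h3
  · left
    rw [D_T k _ (by omega)] at h0 h1 h2
    exact T_ff i ⟨h0, h1, h2⟩
  · right
    have := lastD_ff (i + 24 - E) (by omega)
      (by rw [← D_last k hk _ (by omega), ← h0]; congr 1; omega)
      (by rw [← D_last k hk _ (by omega), ← h1]; congr 1; omega)
      (by rw [← D_last k hk _ (by omega), ← h2]; congr 1; omega)
    omega

end Pool.Agent.TSF
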